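import Pool.Agent.Helper30.DL.GoalsD

/-! # Packet CELL (MP_b4564f_an): a cell -/

set_option autoImplicit false

open Complex (I)
open Filter Topology Finset

namespace Pool.Agent.Helper67.DL

open Pool.Agent.Helper30.DL

/-- constants -/
theorem enc_cst (p : ℕ) (x y z v : ℝ) (h : 10000000000 * v = p) :
    (AF.cst p 0 0).Enc x y z v := by
  unfold AF.Enc AF.cst
  simp only [Nat.cast_zero, sub_zero, zero_mul, add_zero]
  rw [h, sub_self, abs_zero]

/-- constants with a radius -/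
theorem enc_rad (p r : ℕ) (x y z v : ℝ) (h : |10000000000 * v - p| ≤ r) :
    (AF.cst p 0 r).Enc x y z v := by
  unfold AF.Enc AF.cst
  simp only [Nat.cast_zero, sub_zero, zero_mul, add_zero]
  exact h

theorem encCf_of {T : Tb AF} {x y z : ℝ} {R : Tb ℝ} (h : EncTb T x y z R) :
    EncCf T.C x y z R.C := by
  unfold EncTb Tb.toL Cf.toL Gs.toL at h
  simp only [List.cons_append, List.nil_append, List.forall₂_cons] at h
  obtain ⟨h1, h2, h3, h4, h5, h6, h7, h8, h9, h10, h11, h12, h13, h14, h15, h16, h17, h18, h19,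
    h20, h21, h22, h23, h24, h25, h26, h27, h28, h29, h30, h31, h32, h33, h34, h35, h36, h37,
    h38, h39, h40, h41, h42, h43, h44, h45, h46, h47, h48, h49, h50, h51, h52, h53, h54, h55,
    h56, h57, h58, h59, h60, h61, _⟩ := h
  exact ⟨h1, h2, h3, h4, h5, h6, h7, h8, h9, h10, h11, h12, h13, h14, h15, h16, h17, h18, h19,
    h20, h21, h22, h23, h24, h25, h26, h27, h28, h29, h30, h31, h32, h33, h34, h35, h36, h37,
    h38, h39, h40, h41, h42, h43, h44, h45, h46, h47, h48, h49, h50, h51, h52, h53, h54, h55,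
    h56, h57, h58, h59, h60, h61⟩

theorem encG0_of {T : Tb AF} {x y z : ℝ} {R : Tb ℝ} (h : EncTb T x y z R) :
    T.K0.c1.Enc x y z R.K0.c1 ∧ T.K0.c2.Enc x y z R.K0.c2 ∧ T.K0.c3.Enc x y z R.K0.c3
    ∧ T.K0.c4.Enc x y z R.K0.c4 ∧ T.K0.c5.Enc x y z R.K0.c5 ∧ T.K0.c6.Enc x y z R.K0.c6
    ∧ T.K0.c7.Enc x y z R.K0.c7 := by
  unfold EncTb Tb.toL Cf.toL Gs.toL at h
  simp only [List.cons_append, List.nil_append, List.forall₂_cons] at h
  obtain ⟨_, _, _, _, _, _, _, _, _, _, _, _, _, _, _, _, _, _, _,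
    _, _, _, _, _, _, _, _, _, _, _, _, _, _, _, _, _, _,
    _, _, _, _, _, _, _, _, _, _, _, _, _, _, _, _, _, _,
    _, _, _, _, _, _, h1, h2, h3, h4, h5, h6, h7, _⟩ := h
  exact ⟨h1, h2, h3, h4, h5, h6, h7⟩

theorem encG1_of {T : Tb AF} {x y z : ℝ} {R : Tb ℝ} (h : EncTb T x y z R) :
    T.K1.c1.Enc x y z R.K1.c1 ∧ T.K1.c2.Enc x y z R.K1.c2 ∧ T.K1.c3.Enc x y z R.K1.c3
    ∧ T.K1.c4.Enc x y z R.K1.c4 ∧ T.K1.c5.Enc x y z R.K1.c5 ∧ T.K1.c6.Enc x y z R.K1.c6
    ∧ T.K1.c7.Enc x y z R.K1.c7 := by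
  unfold EncTb Tb.toL Cf.toL Gs.toL at h
  simp only [List.cons_append, List.nil_append, List.forall₂_cons] at h
  obtain ⟨_, _, _, _, _, _, _, _, _, _, _, _, _, _, _, _, _, _, _,
    _, _, _, _, _, _, _, _, _, _, _, _, _, _, _, _, _, _,
    _, _, _, _, _, _, _, _, _, _, _, _, _, _, _, _, _, _,
    _, _, _, _, _, _, _, _, _, _, _, _, _, h1, h2, h3, h4, h5, h6, h7, _⟩ := h
  exact ⟨h1, h2, h3, h4, h5, h6, h7⟩

theorem encMd (hafs : AfsStmt) {C : Cf AF} {x y z : ℝ} {R : Cf ℝ} (hx : |x| ≤ 1) (hy : |y| ≤ 1)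
    (hz : |z| ≤ 1) (h : EncCf C x y z R) (E : ℕ) :
    EncCf (C.mdA E) x y z (R.md ((E : ℝ) / 10000)) := by
  have hem : (AF.cst (E * 1000000) 0 0).Enc x y z ((E : ℝ) / 10000) :=
    enc_cst _ _ _ _ _ (by push_cast; ring)
  have hmul : ∀ (A : AF) (v : ℝ), A.Enc x y z v →
      (AF.cst (E * 1000000) 0 0 * A).Enc x y z ((E : ℝ) / 10000 * v) := fun A v hA =>
    (hafs x y z hx hy hz _ A _ v hem hA).2.2.1
  have hsub : ∀ (A : AF) (v : ℝ) (p : ℕ) (w : ℝ), A.Enc x y z v → 10000000000 * w = p →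
      (A - AF.cst p 0 0).Enc x y z (v - w) := fun A v p w hA hw =>
    (hafs x y z hx hy hz A _ v w hA (enc_cst p x y z w hw)).2.1
  have hH : (C.mdA E).H.Enc x y z (R.md ((E : ℝ) / 10000)).H :=
    hsub _ _ _ _ h.H (by push_cast; ring)
  have hea : (C.mdA E).eq.a.Enc x y z (R.md ((E : ℝ) / 10000)).eq.a :=
    hsub _ _ _ _ (hmul _ _ h.eqa) (by push_cast; ring)
  have heb : (C.mdA E).eq.b.Enc x y z (R.md ((E : ℝ) / 10000)).eq.b := hmul _ _ h.eqb
  have hec : (C.mdA E).eq.c.Enc x y z (R.md ((E : ℝ) / 10000)).eq.c :=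
    hsub _ _ _ _ (hmul _ _ h.eqc) (by push_cast; ring)
  exact { h with H := hH, eqa := hea, eqb := heb, eqc := hec, ela := hmul _ _ h.ela
                 elb := hmul _ _ h.elb, ek := hmul _ _ h.ek }

theorem enc_c8 {c8 : ℝ} (h : |c8| ≤ 145 / 1000000) (x y z : ℝ) :
    (AF.cst 0 0 1450000).Enc x y z c8 := by
  apply enc_rad
  rw [Nat.cast_zero, sub_zero, abs_mul, abs_of_pos (by norm_num : (0 : ℝ) < 10000000000)]
  push_cast
  linarith

theorem cell (hafs : AfsStmt) (htbl : TblStmt) (hcst : CstStmt) (hwnd : WndStmt)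
    (hgser : GserStmt) (heint : EintStmt) (hbeb : BebStmt) (hrgs : RgsStmt) (hs3s : S3sStmt)
    (hbrs : BrsStmt) (hsix : SixStmt) : CellStmt := by
  intro Q P E t0 t1 ns cq T R D x0 x1 M run hP hc1h hM hexp k hk ht0 ht1
  obtain ⟨hns, ht01, hE0, hE2, ht1b, hom0, hom4, hbl, hbh, hDm, hDM0, hDM4, hcq⟩ := run.ok
  set t : ℝ := tau k with ht
  obtain ⟨htpos, htpi, -⟩ := hcst k hk t ht
  have ht449 : t ≤ 449 / 2000 := by
    have h1 : (t1 : ℝ) ≤ 2245000000 := by exact_mod_cast ht1b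
    linarith
  have hE2' : (E : ℝ) ≤ 2000 := by exact_mod_cast hE2
  have hE0' : (0 : ℝ) < E := by exact_mod_cast hE0
  set em : ℝ := (E : ℝ) / 10000 with hem
  have hem0 : 0 < em := by positivity
  have hem5 : em ≤ 1 / 5 := by rw [hem]; linarith
  obtain ⟨⟨z, hz, henc⟩, hr1, hgg⟩ := htbl Q P (AF.cst (E * 1000000) 0 0)
    (AF.cst ((10000 - E) * 1000000) 0 0) em t0 t1 ns T hP
    (fun x y z => enc_cst _ x y z _ (by rw [hem]; push_cast; ring))
    (fun x y z => enc_cst _ x y z _ (by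
      rw [hem]
      have h1 : ((10000 - E : ℕ) : ℝ) = 10000 - E := by
        rw [Nat.cast_sub (by omega)]; norm_num
      push_cast
      rw [h1]
      ring)) hns ht01 run.tbl t htpos ht449 ht0 ht1
  have htab : TabAt T P em t z := ⟨hz, henc, run.c80, run.c81⟩
  -- the checks
  have hsc := run.sc
  simp only [scC, Bool.and_eq_true] at hsc
  obtain ⟨⟨hs3, hser⟩, hrg⟩ := hsc
  have hbt : (10000000000 : ℤ) ≤ D.bt := by
    simp only [s3C, Bool.and_eq_true, decide_eq_true_eq] at hs3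
    exact hs3.1.1.1
  have hDm' : (D.m : ℝ) ≤ 10000000000 := by exact_mod_cast hDm
  have hDM4' : 4 * (D.M : ℝ) ≤ 30000000000 := by exact_mod_cast hDM4
  have hDM0' : (0 : ℝ) < D.M := by exact_mod_cast hDM0
  have hM0 : 0 < M := by rw [hM]; positivity
  have hM34 : M ≤ 3 / 4 := by rw [hM]; linarith
  have hcq' : (1 : ℝ) ≤ (cq : ℝ) / 10000 := by
    have h1 : (10000 : ℝ) ≤ cq := by exact_mod_cast hcq
    linarith
  refine ⟨hr1, hc1h, hgg, ?_⟩
  intro e he0 heem w hw1 hw2
  rw [hM] at hw1 hw2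
  obtain ⟨hz1, hz2, hy1, hy2⟩ := hrgs k hk t ht T P em z R D htab hem0.le hem5 hDm'
    (by linarith) hrg w hw1 hw2
  obtain ⟨-, -, -, -, -, -, -, -, -, hre, -⟩ := hwnd k hk t ht 0 w
  obtain ⟨hwk1, hwk2⟩ := hw1 k le_rfl
  generalize hX : Xf k t w = X at *
  generalize hζ : zt k t w k = ζ at *
  generalize ha : w k = a at *
  generalize hy : X.im = y at *
  have hXre : X.re = a - ζ := by linarith
  rw [hXre]
  have ha1 : -(D.m : ℝ) ≤ 10000000000 * a := by linarith
  have ha2 : 10000000000 * a ≤ D.M := by linarith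
  have hage : -1 ≤ a := by linarith
  have haM : a ≤ M := by rw [hM]; linarith
  have ha34 : a ≤ 3 / 4 := by linarith
  -- e = 0
  obtain ⟨c8, hc8, hg0⟩ := hgser t 0 a htpos htpi le_rfl (by norm_num) hage ha34
  have h0 : a ^ 4 ≤ 10000000000 * Phi (mkCf P t) 0 a (a - ζ) y ζ (gf t 0 a) := by
    have h1 := (hsix 0 T.C T.K0 R D x0 run.six0 hom0 hom4 hbl hbh hDm (by linarith) z (mkCf P t)
      (mkGs t 0 c8) hz (fun x y hx hy => encCf_of (henc x y hx hy)) (fun x y hx hy => by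
        obtain ⟨g1, g2, g3, g4, g5, g6, g7⟩ := encG0_of (henc x y hx hy)
        exact ⟨g1, g2, g3, g4, g5, g6, g7, by rw [run.c80]; exact enc_c8 hc8 _ _ _⟩)
      (fun _ => ⟨by simp [mkGs], by simp [mkGs, mkCf, g2h]⟩) a y ζ ha1 ha2 hy1 hy2 hz1 hz2).1 rfl
    rw [← hg0] at h1
    exact h1
  rcases he0.eq_or_lt with rfl | hepos
  · exact h0
  -- e > 0
  obtain ⟨hb1, hb2, hb3⟩ := hs3s T P t z E D M ((cq : ℝ) / 10000) htpos htpi hE0 hE2 htab hM hM0
    hM34 hcq' hexp hs3 hser e a (a - ζ) y hepos heem hage haM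
  rw [← hem] at hb3
  obtain ⟨-, -, -, hr0, hr1'⟩ := hbeb t e em a M ((cq : ℝ) / 10000) htpos htpi hepos heem hem5
    hage haM hM0 hM34 hcq' hexp
  set b : ℝ := bf t e a with hb
  have hge : gf t 0 a - e * b = gf t e a := by
    rw [hb, bf]
    field_simp
    ring
  -- the bracket
  have hbr : b ^ 2 * Br (mkCf P t) a (a - ζ) y ζ (gf t 0 a) (gf t 0 a - e * b)
      (gf t 0 a - em * b) ≤ 0 := by
    by_cases ha0 : a = 0
    · have h1 : b = 0 := by
        rw [ha0, abs_zero, mul_zero] at hb1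
        exact abs_nonpos_iff.mp hb1
      rw [h1]
      simp
    · obtain ⟨tr, htr⟩ := run.br
      have haa : 0 < a ^ 2 := by positivity
      set β : ℝ := b / a with hβ
      have hβa : a * β = b := by rw [hβ]; field_simp
      have hβ0 : 0 ≤ β := by
        have h1 : β = (a * b) / a ^ 2 := by rw [hβ]; field_simp
        rw [h1]
        exact div_nonneg hb2 haa.le
      have hβ1 : β ≤ (D.bt : ℝ) / 10000000000 := by
        have h1 : β = |b| / |a| := by
          rw [← abs_div, ← hβ, abs_of_nonneg hβ0]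
        rw [h1, div_le_iff₀ (abs_pos.mpr ha0)]
        exact hb1
      have heh : em * (D.bt : ℝ) ≤ ((D.bt * E / 10000 + 1 : ℤ) : ℝ) := by
        have h1 : D.bt * E < 10000 * (D.bt * E / 10000 + 1) := by omega
        have h2 : ((D.bt * E : ℤ) : ℝ) < ((10000 * (D.bt * E / 10000 + 1) : ℤ) : ℝ) := by
          exact_mod_cast h1
        push_cast at h2 ⊢
        rw [hem]
        linarith
      have hbtR : (0 : ℝ) ≤ D.bt := by
        have h1 : (10000000000 : ℝ) ≤ D.bt := by exact_mod_cast hbt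
        linarith
      have heh0 : 0 ≤ D.bt * E / 10000 + 1 := by
        have h1 : 0 ≤ D.bt * (E : ℤ) := mul_nonneg (by omega) (by positivity)
        have h2 : 0 ≤ D.bt * (E : ℤ) / 10000 := Int.ediv_nonneg h1 (by norm_num)
        omega
      have heβ : 10000000000 * (e * β) ≤ ((D.bt * E / 10000 + 1 : ℤ) : ℝ) := by
        have h1 : e * β ≤ em * ((D.bt : ℝ) / 10000000000) := by
          apply mul_le_mul heem hβ1 hβ0 hem0.le
        refine le_trans ?_ heh
        linarith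
      have hemβ : 10000000000 * (em * β) ≤ ((D.bt * E / 10000 + 1 : ℤ) : ℝ) := by
        have h1 : em * β ≤ em * ((D.bt : ℝ) / 10000000000) := by
          apply mul_le_mul le_rfl hβ1 hβ0 hem0.le
        refine le_trans ?_ heh
        linarith
      have h1 := hbrs T P em t z (D.bt * E / 10000 + 1) R.om tr (-D.m) D.M D.ylo D.yhi (-R.bl)
        R.bh htpos htpi hem0.le hem5 htab heh0 htr a y ζ 0 (e * β) (em * β) hage ha34
        (by push_cast; exact ha1) ha2 hy1 hy2 (by push_cast; linarith) hz2 le_rfl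
        (by rw [mul_zero]; exact_mod_cast heh0) (mul_nonneg hepos.le hβ0) heβ
        (mul_nonneg hem0.le hβ0) hemβ
      have h2 : gf t 0 a - a * (e * β) = gf t 0 a - e * b := by rw [← hβa]; ring
      have h3 : gf t 0 a - a * (em * β) = gf t 0 a - em * b := by rw [← hβa]; ring
      rw [h2, h3, mul_zero, sub_zero] at h1
      exact mul_nonpos_of_nonneg_of_nonpos (sq_nonneg b) h1
  have hmain := heint (mkCf P t) e em a (a - ζ) y ζ (gf t 0 a) b hepos heem hbr (by
    have h1 : a - (a - ζ) = ζ := by ring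
    rw [h1] at hb3
    exact hb3)
  rw [hge] at hmain
  -- e = em
  obtain ⟨c8', hc8', hgem⟩ := hgser t em a htpos htpi hem0.le hem5 hage ha34
  set r : ℝ := (gf t 0 a - em * b - gf t em a) / a ^ 2 with hr
  have hra : r * a ^ 2 = gf t 0 a - em * b - gf t em a := by
    by_cases ha0 : a = 0
    · rw [ha0] at hr0 hr1' ⊢
      have h1 : gf t 0 0 - em * b - gf t em 0 = 0 := by
        apply le_antisymm _ hr0
        refine hr1'.trans (le_of_eq ?_)
        ring
      rw [h1]
      ring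
    · rw [hr]
      have haa : a ^ 2 ≠ 0 := by positivity
      field_simp
  have hrnn : 0 ≤ r := div_nonneg hr0 (sq_nonneg a)
  have hrle : r ≤ em ^ 2 * t * ((cq : ℝ) / 10000) := by
    by_cases ha0 : a = 0
    · rw [hr, ha0]
      simp only [ne_eq, OfNat.ofNat_ne_zero, not_false_eq_true, zero_pow, div_zero]
      positivity
    · have haa : 0 < a ^ 2 := by positivity
      rw [hr, div_le_iff₀ haa]
      exact hr1'
  have hrw : 10000000000 * r ≤ (w2n E t1 cq : ℝ) := by
    have h1 : E * E * t1 * cq < 1000000000000 * (w2n E t1 cq) := by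
      unfold w2n
      have := Nat.lt_div_mul_add (a := E * E * t1 * cq) (b := 1000000000000) (by norm_num)
      omega
    have h2 : ((E * E * t1 * cq : ℕ) : ℝ) < ((1000000000000 * (w2n E t1 cq) : ℕ) : ℝ) := by
      exact_mod_cast h1
    push_cast at h2
    have h3 : em ^ 2 * t * ((cq : ℝ) / 10000) ≤ em ^ 2 * ((t1 : ℝ) / 10000000000) *
        ((cq : ℝ) / 10000) := by
      have h4 : t ≤ (t1 : ℝ) / 10000000000 := by linarith
      gcongr
    have h5 : 10000000000 * (em ^ 2 * ((t1 : ℝ) / 10000000000) * ((cq : ℝ) / 10000)) =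
        (E * E * t1 * cq : ℝ) / 1000000000000 := by
      rw [hem]; ring
    have h6 : 10000000000 * r ≤ (E * E * t1 * cq : ℝ) / 1000000000000 := by
      rw [← h5]
      linarith
    linarith
  have h1 : a ^ 4 ≤ 10000000000 * Phi ((mkCf P t).md em) 1 a (a - ζ) y ζ
      (gf t 0 a - em * b) := by
    have h2 := (hsix 1 (T.C.mdA E) (T.K1.shA (w2n E t1 cq)) R D x1 run.six1 hom0 hom4 hbl hbh hDm
      (by linarith) z ((mkCf P t).md em) { mkGs t em c8' with c2 := (mkGs t em c8').c2 + r } hz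
      (fun x y hx hy => encMd hafs hx hy hz (encCf_of (henc x y hx hy)) E)
      (fun x y hx hy => by
        obtain ⟨g1, g2, g3, g4, g5, g6, g7⟩ := encG1_of (henc x y hx hy)
        refine ⟨g1, ?_, g3, g4, g5, g6, g7, by
          show T.K1.c8.Enc x y z c8'
          rw [run.c81]; exact enc_c8 hc8' _ _ _⟩
        refine (hafs x y z hx hy hz _ _ _ _ g2 (enc_rad (w2n E t1 cq / 2 + 1)
          (w2n E t1 cq / 2 + 1) x y z r ?_)).1
        have h3 : w2n E t1 cq ≤ 2 * (w2n E t1 cq / 2 + 1) := by omega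
        have h4 : (w2n E t1 cq : ℝ) ≤ 2 * ((w2n E t1 cq / 2 + 1 : ℕ) : ℝ) := by
          exact_mod_cast h3
        rw [abs_le]
        constructor
        · linarith
        · linarith)
      (fun h => absurd h (by norm_num)) a y ζ ha1 ha2 hy1 hy2 hz1 hz2).2 (by norm_num)
    have h3 : Gs.ev { mkGs t em c8' with c2 := (mkGs t em c8').c2 + r } a =
        gf t 0 a - em * b := by
      have h4 : Gs.ev { mkGs t em c8' with c2 := (mkGs t em c8').c2 + r } a =
          (mkGs t em c8').ev a + r * a ^ 2 := by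
        unfold Gs.ev
        ring
      rw [h4, hra, ← hgem]
      ring
    rw [h3] at h2
    exact h2
  -- combination
  have hq0 : 0 ≤ e / em := by positivity
  have hq1 : e / em ≤ 1 := by rw [div_le_one hem0]; exact heem
  generalize e / em = q at *
  generalize Phi (mkCf P t) 0 a (a - ζ) y ζ (gf t 0 a) = u at *
  generalize Phi ((mkCf P t).md em) 1 a (a - ζ) y ζ (gf t 0 a - em * b) = v at *
  have h2 : (1 - q) * a ^ 4 ≤ (1 - q) * (10000000000 * u) :=
    mul_le_mul_of_nonneg_left h0 (by linarith)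
  have h3 : q * a ^ 4 ≤ q * (10000000000 * v) := mul_le_mul_of_nonneg_left h1 hq0
  have h4 : 10000000000 * ((1 - q) * u + q * v) ≤
      10000000000 * Phi (mkCf P t) e a (a - ζ) y ζ (gf t e a) := by linarith
  linarith

end Pool.Agent.Helper67.DL
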